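import Pool.Agent.Q117.BP.Upper
import Pool.Agent.Q117.BP.Lower

/-!
`MP_792a66_co`.  The connected bipartite Turán number of the path `P_k` is
`⌊(k-1)/2⌋ n + O(1)`, for every `k ≥ 5`.
-/

namespace Pool.Agent.Results.MP_792a66_co.PathsConnectedBipartite

open SimpleGraph Filter Topology Pool.Agent.Q117.BP

/-- the sizes (numbers of edges) of the connected spanning subgraphs of `K_{n,n}` without a
subgraph isomorphic to the path on `k` vertices -/
def sizes (n k : ℕ) : Set ℕ :=
  {e | ∃ G : SimpleGraph (Fin n ⊕ Fin n), G ≤ completeBipartiteGraph (Fin n) (Fin n) ∧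
    G.Connected ∧ (pathGraph k).Free G ∧ Nat.card G.edgeSet = e}

/-- the connected bipartite Turán number `ex_{b,c}(n, P_k)` -/
noncomputable def exbc (n k : ℕ) : ℕ := sSup (sizes n k)

theorem sizes_le {n k : ℕ} : ∀ e ∈ sizes n k, e ≤ (k - 1) / 2 * (n + KK ((k - 1) / 2)) := by
  classical
  rintro e ⟨G, hG, hc, hf, rfl⟩
  have hL : ∀ l, PL G l → l.length ≤ 2 * ((k - 1) / 2) + 1 := by
    intro l hl
    have := length_lt_of_free hf l hl
    omega
  have hcol : ∀ u v, G.Adj u v → u.isLeft ≠ v.isLeft := by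
    intro u v h
    have := hG h
    rw [completeBipartiteGraph_adj] at this
    revert this
    rcases u with i | i <;> rcases v with j | j <;> simp
  have e1 : (Finset.univ.filter (fun v : Fin n ⊕ Fin n => v.isLeft = true)).card ≤ n := by
    have : Finset.univ.filter (fun v : Fin n ⊕ Fin n => v.isLeft = true)
        = Finset.univ.image Sum.inl := by
      ext v
      rcases v with i | i <;> simp
    rw [this]
    exact Finset.card_image_le.trans (by simp)
  have e2 : (Finset.univ.filter (fun v : Fin n ⊕ Fin n => v.isLeft = false)).card ≤ n := by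
    have : Finset.univ.filter (fun v : Fin n ⊕ Fin n => v.isLeft = false)
        = Finset.univ.image Sum.inr := by
      ext v
      rcases v with i | i <;> simp
    rw [this]
    exact Finset.card_image_le.trans (by simp)
  have := upper hc (fun v => v.isLeft) hcol hL e1 e2
  rw [Nat.card_eq_fintype_card, ← edgeFinset_card]
  exact this

theorem lower {n k : ℕ} (hk : 5 ≤ k) (hkn : k ≤ 2 * n) :
    n + (n - 1) * ((k - 1) / 2 - 1) ≤ exbc n k := by
  have h1 := LG_edges (n := n) (q := (k - 1) / 2 - 1) (by omega) (by omega)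
  refine h1.trans ?_
  apply le_csSup ⟨_, fun e he => sizes_le e he⟩
  refine ⟨LG n ((k - 1) / 2 - 1), LG_le, LG_connected (by omega) (by omega), ?_, rfl⟩
  rintro ⟨f⟩
  obtain ⟨l, hl, hlen⟩ := PL_of_copy f
  have := LG_path (by omega) (by omega) l hl
  omega

theorem upperB {n k : ℕ} (hk : 5 ≤ k) (hkn : k ≤ 2 * n) :
    exbc n k ≤ (k - 1) / 2 * n + (k - 1) / 2 * KK ((k - 1) / 2) := by
  rw [← Nat.mul_add]
  apply csSup_le
  · refine ⟨_, LG n ((k - 1) / 2 - 1), LG_le, LG_connected (by omega) (by omega), ?_, rfl⟩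
    rintro ⟨f⟩
    obtain ⟨l, hl, hlen⟩ := PL_of_copy f
    have := LG_path (by omega) (by omega) l hl
    omega
  · exact fun e he => sizes_le e he

/-- For every fixed `k ≥ 5` there is a constant `C` such that, with `s = ⌊(k-1)/2⌋`,
`s n - (s - 1) ≤ ex_{b,c}(n, P_k) ≤ s n + C` for every `n` with `k ≤ 2 n`; in particular
`ex_{b,c}(n, P_k) = (1 + o(1)) ⌊(k-1)/2⌋ n`. -/
theorem result (k : ℕ) (hk : 5 ≤ k) :
    (∃ C : ℕ, ∀ n : ℕ, k ≤ 2 * n →
      ((((k - 1) / 2 : ℕ) : ℤ) * n - (((k - 1) / 2 : ℕ) - 1) ≤ exbc n k) ∧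
      exbc n k ≤ (k - 1) / 2 * n + C) ∧
    Tendsto (fun n : ℕ => (exbc n k : ℝ) / ((((k - 1) / 2 : ℕ) : ℝ) * n)) atTop (𝓝 1) := by
  have hmain : ∀ n : ℕ, k ≤ 2 * n →
      ((((k - 1) / 2 : ℕ) : ℤ) * n - (((k - 1) / 2 : ℕ) - 1) ≤ exbc n k) ∧
      exbc n k ≤ (k - 1) / 2 * n + (k - 1) / 2 * KK ((k - 1) / 2) := by
    intro n hn
    refine ⟨?_, upperB hk hn⟩
    have h1 := lower hk hn
    obtain ⟨s, hs⟩ : ∃ s, (k - 1) / 2 = s + 1 := ⟨(k - 1) / 2 - 1, by omega⟩
    obtain ⟨m, rfl⟩ : ∃ m, n = m + 1 := ⟨n - 1, by omega⟩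
    rw [hs] at h1 ⊢
    simp only [Nat.add_sub_cancel] at h1
    have h2 : ((m + 1 + m * s : ℕ) : ℤ) ≤ exbc (m + 1) k := by exact_mod_cast h1
    push_cast at h2 ⊢
    linarith
  refine ⟨⟨_, hmain⟩, ?_⟩
  have hs : (1 : ℝ) ≤ (((k - 1) / 2 : ℕ) : ℝ) := by
    have : 1 ≤ (k - 1) / 2 := by omega
    exact_mod_cast this
  set s : ℝ := (((k - 1) / 2 : ℕ) : ℝ) with hsdef
  set D : ℝ := (((k - 1) / 2 * KK ((k - 1) / 2) : ℕ) : ℝ) with hD
  have hlow : Tendsto (fun n : ℕ => 1 - ((s - 1) / s) * (1 / (n : ℝ))) atTop (𝓝 1) := by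
    have h1 := (tendsto_one_div_atTop_nhds_zero_nat (𝕜 := ℝ)).const_mul ((s - 1) / s)
    have h2 := h1.const_sub 1
    simpa using h2
  have hup : Tendsto (fun n : ℕ => 1 + (D / s) * (1 / (n : ℝ))) atTop (𝓝 1) := by
    have h1 := (tendsto_one_div_atTop_nhds_zero_nat (𝕜 := ℝ)).const_mul (D / s)
    have h2 := h1.const_add 1
    simpa using h2
  refine tendsto_of_tendsto_of_tendsto_of_le_of_le' hlow hup ?_ ?_
  · filter_upwards [eventually_ge_atTop k] with n hn
    have hn0 : (0 : ℝ) < n := by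
      have : 0 < n := by omega
      exact_mod_cast this
    have h1 := (hmain n (by omega)).1
    have h2 : s * (n : ℝ) - (s - 1) ≤ (exbc n k : ℝ) := by
      have h3 := (Int.cast_le (R := ℝ)).2 h1
      rw [Int.cast_sub, Int.cast_sub, Int.cast_mul] at h3
      simp only [Int.cast_natCast, Int.cast_one] at h3
      exact h3
    rw [le_div_iff₀ (by positivity)]
    calc (1 - ((s - 1) / s) * (1 / (n : ℝ))) * (s * n) = s * n - (s - 1) := by
          field_simp
      _ ≤ _ := h2
  · filter_upwards [eventually_ge_atTop k] with n hn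
    have hn0 : (0 : ℝ) < n := by
      have : 0 < n := by omega
      exact_mod_cast this
    have h1 := (hmain n (by omega)).2
    have h2 : (exbc n k : ℝ) ≤ s * (n : ℝ) + D := by
      rw [hsdef, hD]
      exact_mod_cast h1
    rw [div_le_iff₀ (by positivity)]
    calc (exbc n k : ℝ) ≤ s * n + D := h2
      _ = (1 + (D / s) * (1 / (n : ℝ))) * (s * n) := by
        field_simp

end Pool.Agent.Results.MP_792a66_co.PathsConnectedBipartite
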